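import Pool.Agent.Q151.Mackey.Main

/-!
# MP_19adc1_gt: no metrizable precompact group topology on `ℤ` is Mackey
-/

set_option autoImplicit false

namespace Pool.Agent.Results.MP_19adc1_gt.NoMackey

open Pool.Agent.Q151.Mackey Set

/-- `τ` is a Mackey topology: it is a locally quasi-convex group topology which is finer than
every locally quasi-convex group topology with the same characters
(`τ ≤ σ` means: `τ` is finer than `σ`). -/
def IsMackey (τ : TopologicalSpace ℤ) : Prop :=
  @IsTopologicalAddGroup ℤ τ _ ∧ LocallyQuasiConvex τ ∧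
    ∀ σ : TopologicalSpace ℤ, @IsTopologicalAddGroup ℤ σ _ → LocallyQuasiConvex σ →
      Chars σ = Chars τ → τ ≤ σ

/-- (1) Every metrizable precompact locally quasi-convex group topology `τ` on `ℤ` has a
compatible (Hausdorff) locally quasi-convex group topology which is not coarser than `τ`.
(2) No metrizable precompact group topology on `ℤ` is Mackey. -/
theorem result :
    (∀ τ : TopologicalSpace ℤ, @IsTopologicalAddGroup ℤ τ _ →
      @TopologicalSpace.MetrizableSpace ℤ τ → Precompact τ → LocallyQuasiConvex τ →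
      ∃ σ : TopologicalSpace ℤ, @IsTopologicalAddGroup ℤ σ _ ∧ @T2Space ℤ σ ∧
        LocallyQuasiConvex σ ∧ Chars σ = Chars τ ∧ ¬ (τ ≤ σ)) ∧
    ¬ ∃ τ : TopologicalSpace ℤ, @IsTopologicalAddGroup ℤ τ _ ∧
      @TopologicalSpace.MetrizableSpace ℤ τ ∧ Precompact τ ∧ IsMackey τ := by
  have h1 : ∀ τ : TopologicalSpace ℤ, @IsTopologicalAddGroup ℤ τ _ →
      @TopologicalSpace.MetrizableSpace ℤ τ → Precompact τ → LocallyQuasiConvex τ →
      ∃ σ : TopologicalSpace ℤ, @IsTopologicalAddGroup ℤ σ _ ∧ @T2Space ℤ σ ∧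
        LocallyQuasiConvex σ ∧ Chars σ = Chars τ ∧ ¬ (τ ≤ σ) := by
    intro τ hg hm hp hl
    have hT : @T2Space ℤ τ := by
      let := τ
      have := hm
      infer_instance
    have hfc : (@nhds ℤ τ 0).IsCountablyGenerated := by
      let := τ
      have := hm
      infer_instance
    exact exists_finer τ hg hT hfc hp hl
  refine ⟨h1, ?_⟩
  rintro ⟨τ, hg, hm, hp, -, hl, hM⟩
  obtain ⟨σ, hσ, -, hσl, hc, hn⟩ := h1 τ hg hm hp hl
  exact hn (hM σ hσ hσl hc)

end Pool.Agent.Results.MP_19adc1_gt.NoMackey
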